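import Pool.Agent.Helper66.PD.Stmts

set_option autoImplicit false

namespace Pool.Agent.Helper66.PD

theorem spl_aux (P : Type) [Fintype P] (l r : P → ℕ) (a b : ℕ) (L : P → Prop) :
    ∀ n a' : ℕ, a' ≤ b → b - a' = n → a ≤ a' →
    ∃ c : ℕ → ℕ, (∀ p q, a' ≤ p → p ≤ q → q ≤ b → c p ≤ c q) ∧
      (∀ z p q, ¬ L z → a' ≤ p → p ≤ q → q ≤ b → l z ≤ p → q ≤ r z → c q ≤ c p + 1) ∧
      (∀ p, a' ≤ p → p ≤ b → (∀ z, l z ≤ p → p ≤ r z → L z) ∨
        ∃ z, ¬ L z ∧ ∀ q, a' ≤ q → q ≤ b → c q = c p → l z ≤ q ∧ q ≤ r z) ∧
      (∀ z q, ¬ L z → l z ≤ a' → a' ≤ q → q ≤ b → q ≤ r z → c q = 0) := by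
  classical
  intro n
  induction n using Nat.strong_induction_on with
  | _ n ih =>
    intro a' hab hn ha
    -- the end of the first block
    obtain ⟨e, he1, he2, he3, he4⟩ : ∃ e : ℕ, a' ≤ e ∧
        (∀ z, ¬ L z → l z ≤ a' → a' ≤ r z → min (r z) b ≤ e) ∧
        ((∀ z, l z ≤ a' → a' ≤ r z → L z) ∧ e = a' ∨
          ∃ z, ¬ L z ∧ l z ≤ a' ∧ e = min (r z) b) ∧ e ≤ b := by
      by_cases hT : (Finset.univ.filter (fun z => ¬ L z ∧ l z ≤ a' ∧ a' ≤ r z)).Nonempty
      · obtain ⟨z0, hz0, hmax⟩ := Finset.exists_max_image _ (fun z => min (r z) b) hT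
        obtain ⟨h1, h2, h3⟩ := (Finset.mem_filter.mp hz0).2
        refine ⟨min (r z0) b, le_min h3 hab, ?_, Or.inr ⟨z0, h1, h2, rfl⟩, min_le_right _ _⟩
        intro z g1 g2 g3
        exact hmax z (Finset.mem_filter.mpr ⟨Finset.mem_univ _, g1, g2, g3⟩)
      · rw [Finset.not_nonempty_iff_eq_empty] at hT
        have hno : ∀ z, ¬ (¬ L z ∧ l z ≤ a' ∧ a' ≤ r z) := by
          intro z hz
          have : z ∈ (∅ : Finset P) := by
            rw [← hT]
            exact Finset.mem_filter.mpr ⟨Finset.mem_univ _, hz⟩
          simp at this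
        refine ⟨a', le_rfl, ?_, Or.inl ⟨?_, rfl⟩, hab⟩
        · intro z g1 g2 g3
          exact absurd ⟨g1, g2, g3⟩ (hno z)
        · intro z g2 g3
          by_contra g1
          exact hno z ⟨g1, g2, g3⟩
    by_cases heb : e = b
    · refine ⟨fun _ => 0, fun _ _ _ _ _ => le_rfl, fun _ _ _ _ _ _ _ _ _ => Nat.zero_le _, ?_,
        fun _ _ _ _ _ _ _ => rfl⟩
      intro p hp1 hp2
      rcases he3 with ⟨h1, h2⟩ | ⟨z, h1, h2, h3⟩
      · left
        have hpa : p = a' := by omega
        rw [hpa]; exact h1
      · right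
        refine ⟨z, h1, fun q hq1 hq2 _ => ⟨h2.trans hq1, ?_⟩⟩
        have : b ≤ r z := by
          rw [← heb, h3]; exact min_le_left _ _
        omega
    · have heb' : e < b := lt_of_le_of_ne he4 heb
      obtain ⟨c', hc1, hc2, hc3, hc4⟩ := ih (b - (e + 1)) (by omega) (e + 1) (by omega) rfl
        (by omega)
      refine ⟨fun q => if q ≤ e then 0 else c' q + 1, ?_, ?_, ?_, ?_⟩
      · intro p q hp hpq hq
        by_cases h1 : p ≤ e
        · simp only [h1, if_true]; exact Nat.zero_le _
        · have h2 : ¬ q ≤ e := by omega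
          simp only [h1, h2, if_false]
          have := hc1 p q (by omega) hpq hq
          omega
      · intro z p q hz hp hpq hq hzp hqz
        by_cases h1 : p ≤ e
        · by_cases h2 : q ≤ e
          · simp only [h1, h2, if_true]; omega
          · simp only [h1, h2, if_true, if_false]
            have h3 : ¬ l z ≤ a' := by
              intro h4
              have h5 := he2 z hz h4 (by omega)
              have h6 : q ≤ min (r z) b := le_min hqz hq
              omega
            have h7 := hc4 z q hz (by omega) (by omega) hq hqz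
            omega
        · have h2 : ¬ q ≤ e := by omega
          simp only [h1, h2, if_false]
          have := hc2 z p q hz (by omega) hpq hq hzp hqz
          omega
      · intro p hp1 hp2
        by_cases h1 : p ≤ e
        · rcases he3 with ⟨g1, g2⟩ | ⟨z, g1, g2, g3⟩
          · left
            have hpa : p = a' := by omega
            rw [hpa]; exact g1
          · right
            refine ⟨z, g1, fun q hq1 hq2 hqc => ?_⟩
            simp only [h1, if_true] at hqc
            have h2 : q ≤ e := by
              by_contra h3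
              simp only [h3, if_false] at hqc
              omega
            refine ⟨by omega, ?_⟩
            have : e ≤ r z := by rw [g3]; exact min_le_left _ _
            omega
        · rcases hc3 p (by omega) hp2 with g | ⟨z, g1, g2⟩
          · left; exact g
          · right
            refine ⟨z, g1, fun q hq1 hq2 hqc => ?_⟩
            simp only [h1, if_false] at hqc
            have h2 : ¬ q ≤ e := by
              intro h3
              simp only [h3, if_true] at hqc
              omega
            simp only [h2, if_false] at hqc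
            exact g2 q (by omega) hq2 (by omega)
      · intro z q hz h1 h2 h3 h4
        have h5 := he2 z hz h1 (by omega)
        have h6 : q ≤ min (r z) b := le_min h4 h3
        have h7 : q ≤ e := by omega
        simp only [h7, if_true]

theorem st_SPL : ST_SPL := by
  intro P _ l r a b hab
  obtain ⟨c, h1, h2, h3, -⟩ := spl_aux P l r a b (fun z => l z ≤ a ∧ b ≤ r z) (b - a) a hab rfl
    le_rfl
  exact ⟨c, h1, h2, h3⟩

end Pool.Agent.Helper66.PD
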